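import Pool.Agent.Helper53.Engel.Statement

/-!
# A criterion for Engel structures on the 4-torus
-/

set_option autoImplicit false

open Topology
open scoped ContDiff

namespace Pool.Agent.Helper79.Engel

open Pool.Agent.Helper53.Engel

/-- `dα (u, v)` -/
noncomputable def dal (α : V4 → V4 →L[ℝ] ℝ) (p u v : V4) : ℝ :=
  fderiv ℝ α p u v - fderiv ℝ α p v u

section
variable {α : V4 → V4 →L[ℝ] ℝ} {p u v w : V4}

theorem dal_add_right : dal α p u (v + w) = dal α p u v + dal α p u w := by
  simp only [dal, map_add, add_apply]; ring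

theorem dal_smul_right (c : ℝ) : dal α p u (c • v) = c * dal α p u v := by
  simp only [dal, map_smul, smul_apply, smul_eq_mul]; ring

theorem dal_add_left : dal α p (u + v) w = dal α p u w + dal α p v w := by
  simp only [dal, map_add, add_apply]; ring

theorem dal_smul_left (c : ℝ) : dal α p (c • u) v = c * dal α p u v := by
  simp only [dal, map_smul, smul_apply, smul_eq_mul]; ring

theorem dal_self : dal α p u u = 0 := by simp [dal]

theorem dal_swap : dal α p u v = - dal α p v u := by simp [dal]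

/-- Cartan's formula -/
theorem cartan (hα : ContDiff ℝ ∞ α) {V V' : V4 → V4} (hV : ContDiff ℝ ∞ V)
    (hV' : ContDiff ℝ ∞ V') (h : ∀ p, α p (V p) = 0) (h' : ∀ p, α p (V' p) = 0) (p : V4) :
    α p (VectorField.lieBracket ℝ V V' p) = - dal α p (V p) (V' p) := by
  have key : ∀ (U : V4 → V4), ContDiff ℝ ∞ U → (∀ p, α p (U p) = 0) → ∀ u : V4,
      fderiv ℝ α p u (U p) + α p (fderiv ℝ U p u) = 0 := by
    intro U hU h0 u
    have h1 : HasFDerivAt (fun q => α q (U q)) _ p :=
      ((hα.differentiable (by simp)) p).hasFDerivAt.clm_apply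
        ((hU.differentiable (by simp)) p).hasFDerivAt
    have h2 : HasFDerivAt (fun q => α q (U q)) (0 : V4 →L[ℝ] ℝ) p := by
      have : (fun q => α q (U q)) = fun _ => (0 : ℝ) := funext h0
      rw [this]; exact hasFDerivAt_const _ _
    have h3 := h1.unique h2
    have h4 := congrArg (fun L : V4 →L[ℝ] ℝ => L u) h3
    simp at h4
    linarith
  have h1 := key V' hV' h' (V p)
  have h2 := key V hV h (V' p)
  rw [VectorField.lieBracket_eq]
  simp only [map_sub, dal]
  linarith

end

end Pool.Agent.Helper79.Engel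

namespace Pool.Agent.Helper53.Engel

open Pool.Agent.Helper79.Engel

theorem engel_criterion (α : V4 → V4 →L[ℝ] ℝ) (W X : V4 → V4)
    (hα : ContDiff ℝ ∞ α) (hW : ContDiff ℝ ∞ W) (hX : ContDiff ℝ ∞ X)
    (pα : ∀ p, ∀ n ∈ Lat, α (p + n) = α p) (pW : ∀ p, ∀ n ∈ Lat, W (p + n) = W p)
    (pX : ∀ p, ∀ n ∈ Lat, X (p + n) = X p)
    (h0 : ∀ p, W p ≠ 0) (hαW : ∀ p, α p (W p) = 0) (hαX : ∀ p, α p (X p) = 0)
    (hker : ∀ p v, α p v = 0 → fderiv ℝ α p (W p) v - fderiv ℝ α p v (W p) = 0)
    (hQ : ∀ p, fderiv ℝ α p (X p) (VectorField.lieBracket ℝ W X p) -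
      fderiv ℝ α p (VectorField.lieBracket ℝ W X p) (X p) ≠ 0) :
    IsEngel (fun p => Submodule.span ℝ {W p, X p}) ∧
      IsCharacteristic (fun p => Submodule.span ℝ {W p, X p}) (fun p => Submodule.span ℝ {W p}) := by
  change ∀ p v, α p v = 0 → dal α p (W p) v = 0 at hker
  change ∀ p, dal α p (X p) (VectorField.lieBracket ℝ W X p) ≠ 0 at hQ
  set Y : V4 → V4 := VectorField.lieBracket ℝ W X with hYdef
  have hY : ContDiff ℝ ∞ Y := hW.lieBracket_vectorField hX (by simp)
  have hαY : ∀ p, α p (Y p) = 0 := by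
    intro p
    rw [hYdef, cartan hα hW hX hαW hαX p, hker p _ (hαX p), neg_zero]
  -- independence
  have indep : ∀ p (a b c : ℝ), a • W p + b • X p + c • Y p = 0 → a = 0 ∧ b = 0 ∧ c = 0 := by
    intro p a b c h
    have h1 : dal α p (X p) (a • W p + b • X p + c • Y p) = 0 := by
      rw [h]; simp [dal]
    rw [dal_add_right, dal_add_right, dal_smul_right, dal_smul_right, dal_smul_right, dal_self,
      dal_swap, hker p _ (hαX p)] at h1
    have hc : c = 0 := by
      have : c * dal α p (X p) (Y p) = 0 := by linarith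
      exact (mul_eq_zero.1 this).resolve_right (hQ p)
    have h2 : dal α p (a • W p + b • X p + c • Y p) (Y p) = 0 := by
      rw [h]; simp [dal]
    rw [dal_add_left, dal_add_left, dal_smul_left, dal_smul_left, dal_smul_left, dal_self,
      hker p _ (hαY p)] at h2
    have hb : b = 0 := by
      have : b * dal α p (X p) (Y p) = 0 := by linarith
      exact (mul_eq_zero.1 this).resolve_right (hQ p)
    rw [hb, hc, zero_smul, zero_smul, add_zero, add_zero] at h
    exact ⟨(smul_eq_zero.1 h).resolve_right (h0 p), hb, hc⟩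
  have li3 : ∀ p, LinearIndependent ℝ ![W p, X p, Y p] := by
    intro p
    rw [Fintype.linearIndependent_iff]
    intro g hg
    simp only [Fin.sum_univ_three, Matrix.cons_val_zero, Matrix.cons_val_one, Matrix.cons_val]
      at hg
    obtain ⟨h1, h2, h3⟩ := indep p _ _ _ hg
    intro i; fin_cases i <;> assumption
  have li2 : ∀ p, LinearIndependent ℝ ![W p, X p] := by
    intro p
    rw [Fintype.linearIndependent_iff]
    intro g hg
    simp only [Fin.sum_univ_two, Matrix.cons_val_zero, Matrix.cons_val_one]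
      at hg
    obtain ⟨h1, h2, h3⟩ := indep p (g 0) (g 1) 0 (by simpa using hg)
    intro i; fin_cases i <;> assumption
  -- the kernel has rank three
  have hαne : ∀ p, ∃ u, α p u ≠ 0 := by
    intro p
    refine ⟨VectorField.lieBracket ℝ X Y p, ?_⟩
    rw [cartan hα hX hY hαX hαY p]
    exact neg_ne_zero.2 (hQ p)
  have rank_ker : ∀ p, Module.finrank ℝ (LinearMap.ker (α p : V4 →ₗ[ℝ] ℝ)) = 3 := by
    intro p
    have h1 := LinearMap.finrank_range_add_finrank_ker (α p : V4 →ₗ[ℝ] ℝ)
    have h2 : LinearMap.range (α p : V4 →ₗ[ℝ] ℝ) = ⊤ := by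
      apply LinearMap.range_eq_top.2
      obtain ⟨u, hu⟩ := hαne p
      intro r
      refine ⟨(r / α p u) • u, ?_⟩
      simp [hu]
    rw [h2, finrank_top] at h1
    have h3 : Module.finrank ℝ V4 = 4 := by simp [V4]
    rw [h3] at h1
    simp at h1
    omega
  set D : V4 → Submodule ℝ V4 := fun p => Submodule.span ℝ {W p, X p} with hD
  have Drange : ∀ p, D p = Submodule.span ℝ (Set.range ![W p, X p]) := by
    intro p; simp [hD, Matrix.range_cons, Matrix.range_empty, Set.pair_comm]
  have SW : Sect D W := ⟨hW, fun p => Submodule.subset_span (by simp)⟩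
  have SX : Sect D X := ⟨hX, fun p => Submodule.subset_span (by simp)⟩
  have Dker : ∀ p u, u ∈ D p → α p u = 0 := by
    intro p u hu
    rw [hD] at hu
    simp only [Submodule.mem_span_pair] at hu
    obtain ⟨a, b, rfl⟩ := hu
    simp [hαW, hαX]
  have Ddal : ∀ p u v, u ∈ D p → v ∈ D p → dal α p u v = 0 := by
    intro p u v hu hv
    have hv' := hv
    rw [hD] at hu hv'
    simp only [Submodule.mem_span_pair] at hu hv'
    obtain ⟨a, b, rfl⟩ := hu
    rw [dal_add_left, dal_smul_left, dal_smul_left, hker p _ (Dker p _ hv)]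
    obtain ⟨c, d, rfl⟩ := hv'
    rw [dal_add_right, dal_smul_right, dal_smul_right, dal_self, dal_swap, hker p _ (hαX p)]
    simp
  have sub3 : ∀ p, Submodule.span ℝ (Set.range ![W p, X p, Y p]) ≤ derived D p := by
    intro p
    rw [Submodule.span_le]
    rintro _ ⟨i, rfl⟩
    fin_cases i
    · exact (le_sup_left : D p ≤ derived D p) (SW.2 p)
    · exact (le_sup_left : D p ≤ derived D p) (SX.2 p)
    · refine (le_sup_right : _ ≤ derived D p) ?_
      exact Submodule.subset_span ⟨W, X, SW, SX, rfl⟩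
  have le_ker : ∀ p, derived D p ≤ LinearMap.ker (α p : V4 →ₗ[ℝ] ℝ) := by
    intro p
    refine sup_le ?_ ?_
    · intro u hu; exact Dker p u hu
    · rw [Submodule.span_le]
      rintro _ ⟨v, w, hv, hw, rfl⟩
      change α p _ = 0
      rw [cartan hα hv.1 hw.1 (fun q => Dker q _ (hv.2 q)) (fun q => Dker q _ (hw.2 q)),
        Ddal p _ _ (hv.2 p) (hw.2 p), neg_zero]
  have span3 : ∀ p, Submodule.span ℝ (Set.range ![W p, X p, Y p]) =
      LinearMap.ker (α p : V4 →ₗ[ℝ] ℝ) := by
    intro p
    apply Submodule.eq_of_le_of_finrank_eq ((sub3 p).trans (le_ker p))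
    rw [finrank_span_eq_card (li3 p), rank_ker p]
    simp
  have der : ∀ p, derived D p = LinearMap.ker (α p : V4 →ₗ[ℝ] ℝ) := fun p =>
    le_antisymm (le_ker p) ((span3 p).symm.le.trans (sub3 p))
  have derF : derived D = fun p => LinearMap.ker (α p : V4 →ₗ[ℝ] ℝ) := funext der
  have SX' : Sect (derived D) X := ⟨hX, fun p => by rw [der]; exact hαX p⟩
  have SY' : Sect (derived D) Y := ⟨hY, fun p => by rw [der]; exact hαY p⟩
  refine ⟨⟨⟨?_, ?_, ?_⟩, ⟨?_, ?_, ?_⟩, ?_⟩, ⟨⟨?_, ?_, ?_⟩, ?_, ?_⟩⟩
  · intro p n hn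
    simp only [hD, pW p n hn, pX p n hn]
  · intro p
    rw [Drange, finrank_span_eq_card (li2 p)]
    simp
  · intro p
    refine ⟨![W, X], ?_, Filter.Eventually.of_forall fun q => ?_⟩
    · intro i; fin_cases i
      · exact hW
      · exact hX
    · rw [Drange]
      congr 2
      funext i; fin_cases i <;> rfl
  · intro p n hn
    rw [der, der, pα p n hn]
  · intro p
    rw [der, rank_ker]
  · intro p
    refine ⟨![W, X, Y], ?_, Filter.Eventually.of_forall fun q => ?_⟩
    · intro i; fin_cases i
      · exact hW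
      · exact hX
      · exact hY
    · rw [der, ← span3]
      congr 2
      funext i; fin_cases i <;> rfl
  · intro p
    have hle : derived D p ≤ derived (derived D) p := le_sup_left
    have hmem : VectorField.lieBracket ℝ X Y p ∈ derived (derived D) p :=
      (le_sup_right : _ ≤ derived (derived D) p) (Submodule.subset_span ⟨X, Y, SX', SY', rfl⟩)
    have hne : α p (VectorField.lieBracket ℝ X Y p) ≠ 0 := by
      rw [cartan hα hX hY hαX hαY p]
      exact neg_ne_zero.2 (hQ p)
    rw [eq_top_iff]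
    intro u _
    have h1 : u - (α p u / α p (VectorField.lieBracket ℝ X Y p)) •
        VectorField.lieBracket ℝ X Y p ∈ derived D p := by
      rw [der]
      simp [hne]
    have h2 := Submodule.add_mem _ (hle h1)
      (Submodule.smul_mem _ (α p u / α p (VectorField.lieBracket ℝ X Y p)) hmem)
    simpa using h2
  · intro p n hn
    simp only [pW p n hn]
  · intro p
    exact finrank_span_singleton (h0 p)
  · intro p
    refine ⟨![W], ?_, Filter.Eventually.of_forall fun q => ?_⟩
    · intro i; fin_cases i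
      exact hW
    · congr 1
      ext u; simp
  · intro p
    rw [der, Submodule.span_singleton_le_iff_mem]
    exact hαW p
  · intro v w hv hw p
    have hvW : ∀ q, ∃ c : ℝ, c • W q = v q := fun q => Submodule.mem_span_singleton.1 (hv.2 q)
    have hαv : ∀ q, α q (v q) = 0 := by
      intro q; obtain ⟨c, hc⟩ := hvW q
      rw [← hc]; simp [hαW]
    have hαw : ∀ q, α q (w q) = 0 := by
      intro q; have := hw.2 q; rw [der] at this; exact this
    rw [der]
    change α p _ = 0
    rw [cartan hα hv.1 hw.1 hαv hαw]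
    obtain ⟨c, hc⟩ := hvW p
    rw [← hc, dal_smul_left, hker p _ (hαw p)]
    simp

end Pool.Agent.Helper53.Engel
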