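import Pool.Agent.Helper53.Engel.Flow

/-!
# No closed orbit in the closed discs of the plugs
-/

set_option autoImplicit false

open Topology Real MeasureTheory
open scoped ContDiff

noncomputable section

namespace Pool.Agent.Helper79.Engel

open Pool.Agent.Helper53.Engel

theorem lin_ode {f g : ℝ → ℝ} (hg : Continuous g) (hf : ∀ s, HasDerivAt f (g s * f s) s)
    (s0 s : ℝ) : f s = f s0 * Real.exp (∫ u in s0..s, g u) := by
  have hG : ∀ s, HasDerivAt (fun s => ∫ u in s0..s, g u) (g s) s := fun s =>
    intervalIntegral.integral_hasDerivAt_right (hg.intervalIntegrable _ _)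
      (hg.stronglyMeasurableAtFilter _ _) hg.continuousAt
  have h : ∀ s, HasDerivAt (fun s => f s * Real.exp (-∫ u in s0..s, g u)) 0 s := by
    intro s
    refine ((hf s).mul ((hG s).neg.exp)).congr_deriv ?_
    ring
  have h2 := is_const_of_deriv_eq_zero (fun s => (h s).differentiableAt) (fun s => (h s).deriv) s s0
  simp only [intervalIntegral.integral_same, neg_zero, Real.exp_zero, mul_one] at h2
  rw [← h2, mul_assoc, ← Real.exp_add]
  simp

theorem exp_half (z : ℝ) : Complex.exp (Complex.I * (om * ((z + 1 / 2 : ℝ) : ℝ) : ℝ)) =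
    -Complex.exp (Complex.I * (om * z : ℝ)) := by
  have : (Complex.I * ((om * (z + 1 / 2) : ℝ) : ℂ)) =
      Complex.I * ((om * z : ℝ) : ℂ) + π * Complex.I := by
    unfold om; push_cast; ring
  rw [this, Complex.exp_add, Complex.exp_pi_mul_I]; ring

theorem generic_half {z κ : ℝ} (h : Generic z κ) : Generic (z + 1 / 2) κ where
  loop := by
    intro c T hc m n heq
    apply h.loop c T hc (-m) (-n)
    have e := exp_half z
    push_cast at e heq ⊢
    rw [e] at heq
    linear_combination -heq
  slope := by
    intro t ht m n ⟨h1, h2⟩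
    have e1 : sin (om * (z + 1 / 2)) = - sin (om * z) := by
      have : om * (z + 1 / 2) = om * z + π := by unfold om; ring
      rw [this, sin_add_pi]
    have e2 : cos (om * (z + 1 / 2)) = - cos (om * z) := by
      have : om * (z + 1 / 2) = om * z + π := by unfold om; ring
      rw [this, cos_add_pi]
    rw [e1] at h1
    rw [e2] at h2
    exact h.slope (-t) (neg_ne_zero.2 ht) m n ⟨by linarith, by linarith⟩

theorem rr_pos : 0 < rr := by unfold rr; norm_num
theorem ep_pos : 0 < ep := by unfold ep; norm_num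

theorem Yh_continuous : Continuous Yh := by
  have h1 : Continuous (deriv ff) := deriv_ff_contDiff.continuous
  have h2 : Continuous ff := ff_contDiff.continuous
  unfold Yh
  fun_prop

/-- the main computation -/
theorem no_trapped {c κ : ℝ} (hgen : Generic c κ) {x y ζ θ : ℝ → ℝ} {T : ℝ} (hT : 0 < T) {a b : ℤ}
    (hx : ∀ s, HasDerivAt x (plugW c κ (ζ s, θ s)).1 s)
    (hy : ∀ s, HasDerivAt y (plugW c κ (ζ s, θ s)).2.1 s)
    (hζ : ∀ s, HasDerivAt ζ (plugW c κ (ζ s, θ s)).2.2.1 s)
    (hθ : ∀ s, HasDerivAt θ (plugW c κ (ζ s, θ s)).2.2.2 s)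
    (px : ∀ s, x (s + T) = x s + a) (py : ∀ s, y (s + T) = y s + b)
    (pζ : ∀ s, ζ (s + T) = ζ s) (pθ : ∀ s, θ (s + T) = θ s)
    (hρ : (∀ s, rho (ζ s, θ s) < 1) ∨ (∀ s, rho (ζ s, θ s) = 1)) : False := by
  have hr := rr_pos
  have he := ep_pos
  have hr0 : rr ≠ 0 := hr.ne'
  have he0 : ep ≠ 0 := he.ne'
  have cζ : Continuous ζ := continuous_iff_continuousAt.2 fun s => (hζ s).continuousAt
  have cθ : Continuous θ := continuous_iff_continuousAt.2 fun s => (hθ s).continuousAt
  have hle : ∀ s, rho (ζ s, θ s) ≤ 1 := by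
    rcases hρ with h | h
    · exact fun s => (h s).le
    · exact fun s => (h s).le
  have fd : ∀ s, deriv ff (rho (ζ s, θ s)) = ep := fun s =>
    deriv_ff_core _ ((hle s).trans (by norm_num))
  have fc : ∀ s, ff (rho (ζ s, θ s)) = ep * (rho (ζ s, θ s) - 1) := fun s =>
    ff_core _ ((hle s).trans (by norm_num))
  have wz : ∀ s, (plugW c κ (ζ s, θ s)).2.2.1 = -(2 * ζ s * θ s * ep / rr ^ 2) := by
    intro s
    have := fd s
    unfold plugW
    dsimp only
    rw [this]
  have wt : ∀ s, (plugW c κ (ζ s, θ s)).2.2.2 =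
      ff (rho (ζ s, θ s)) + 2 * ζ s ^ 2 * ep / rr ^ 2 := by
    intro s
    have := fd s
    unfold plugW
    dsimp only
    rw [this]
  have zlin : ∀ s, HasDerivAt ζ ((-(2 * θ s * ep / rr ^ 2)) * ζ s) s := by
    intro s
    refine (hζ s).congr_deriv ?_
    rw [wz]; ring
  have zsol := fun s0 s => lin_ode (f := ζ) (g := fun s => -(2 * θ s * ep / rr ^ 2))
    (by fun_prop) zlin s0 s
  have zdich : (∀ s, ζ s = 0) ∨ (∀ s, ζ s ≠ 0) := by
    by_cases h : ζ 0 = 0
    · left; intro s; rw [zsol 0 s, h, zero_mul]
    · right; intro s; rw [zsol 0 s]; exact mul_ne_zero h (Real.exp_ne_zero _)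
  rcases zdich with hz | hz
  · rcases hρ with h | h
    · -- strictly decreasing
      have hanti : StrictAnti θ := by
        apply strictAnti_of_deriv_neg
        intro s
        rw [(hθ s).deriv, wt, fc, hz]
        have := h s
        rw [hz] at this
        have h1 : ep * (rho (0, θ s) - 1) < 0 := by nlinarith
        simpa using h1
      have := hanti (show (0 : ℝ) < 0 + T by linarith)
      rw [pθ] at this
      exact lt_irrefl _ this
    · -- rest point of the planar field
      have hθ0 : ∀ s, HasDerivAt θ 0 s := by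
        intro s
        refine (hθ s).congr_deriv ?_
        rw [wt, fc, h s, hz]; ring
      have hconst : ∀ s, θ s = θ 0 := fun s =>
        is_const_of_deriv_eq_zero (fun s => (hθ0 s).differentiableAt) (fun s => (hθ0 s).deriv) s 0
      have hne : θ 0 ≠ 0 := by
        intro h0
        have := h 0
        rw [hz, h0] at this
        simp [rho] at this
      set w : ℝ := θ 0 / rr * ep with hw
      have hw0 : w ≠ 0 := by positivity
      have e1 : ∀ s, (plugW c κ (ζ s, θ s)).1 = -w * sin (om * c) := by
        intro s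
        have h1 := fd s
        have h2 := h s
        unfold plugW
        dsimp only
        rw [h2] at h1 ⊢
        rw [h1, hz, hconst, ff_one, GG_out 1 (by norm_num)]
        rw [hw]; ring_nf
      have e2 : ∀ s, (plugW c κ (ζ s, θ s)).2.1 = w * cos (om * c) := by
        intro s
        have h1 := fd s
        have h2 := h s
        unfold plugW
        dsimp only
        rw [h2] at h1 ⊢
        rw [h1, hz, hconst, ff_one, GG_out 1 (by norm_num)]
        rw [hw]; ring_nf
      have l1 : ∀ s, HasDerivAt (fun s => x s + s * (w * sin (om * c))) 0 s := by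
        intro s
        refine ((hx s).add ((hasDerivAt_id s).mul_const (w * sin (om * c)))).congr_deriv ?_
        rw [e1]; ring
      have l2 : ∀ s, HasDerivAt (fun s => y s - s * (w * cos (om * c))) 0 s := by
        intro s
        refine ((hy s).sub ((hasDerivAt_id s).mul_const (w * cos (om * c)))).congr_deriv ?_
        rw [e2]; ring
      have k1 := is_const_of_deriv_eq_zero (fun s => (l1 s).differentiableAt)
        (fun s => (l1 s).deriv) (0 + T) 0
      have k2 := is_const_of_deriv_eq_zero (fun s => (l2 s).differentiableAt)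
        (fun s => (l2 s).deriv) (0 + T) 0
      rw [px] at k1
      rw [py] at k2
      exact hgen.slope (T * w) (mul_ne_zero hT.ne' hw0) a b
        ⟨by linear_combination -k1, by linear_combination -k2⟩
  · rcases hρ with h | h
    swap
    · -- strictly increasing
      have hmono : StrictMono θ := by
        apply strictMono_of_deriv_pos
        intro s
        rw [(hθ s).deriv, wt, fc, h s]
        have := hz s
        have : 0 < 2 * ζ s ^ 2 * ep / rr ^ 2 := by positivity
        linarith
      have := hmono (show (0 : ℝ) < 0 + T by linarith)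
      rw [pθ] at this
      exact lt_irrefl _ this
    · -- loops
      have dρ : ∀ s, HasDerivAt (fun s => rho (ζ s, θ s))
          (2 * θ s / rr ^ 2 * ff (rho (ζ s, θ s))) s := by
        intro s
        have h1 := (((hζ s).pow 2).add ((hθ s).pow 2)).div_const (rr ^ 2)
        refine h1.congr_deriv ?_
        rw [wz, wt]
        simp only [Nat.cast_ofNat, Nat.add_one_sub_one, pow_one]
        ring
      have cρ : Continuous fun s => rho (ζ s, θ s) :=
        continuous_iff_continuousAt.2 fun s => (dρ s).continuousAt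
      obtain ⟨s0, -, hs0⟩ := exists_hasDerivAt_eq_zero (f := fun s => rho (ζ s, θ s))
        (a := 0) (b := 0 + T) (by linarith) cρ.continuousOn (by simp only [pζ, pθ])
        (fun s _ => dρ s)
      have hfneg : ∀ s, ff (rho (ζ s, θ s)) ≠ 0 := fun s => (ff_neg _ (h s)).ne
      have hθ0 : θ s0 = 0 := by
        rcases mul_eq_zero.1 hs0 with h1 | h1
        · rcases div_eq_zero_iff.1 h1 with h2 | h2
          · linarith
          · exact absurd h2 (by positivity)
        · exact absurd h1 (hfneg s0)
      -- the constant φ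
      have dφ : ∀ s, HasDerivAt (fun s => ζ s * ff (rho (ζ s, θ s))) 0 s := by
        intro s
        have h1 : HasDerivAt (fun s => ff (rho (ζ s, θ s)))
            (deriv ff (rho (ζ s, θ s)) * (2 * θ s / rr ^ 2 * ff (rho (ζ s, θ s)))) s :=
          (ff_differentiable _).hasDerivAt.comp s (dρ s)
        refine ((hζ s).mul h1).congr_deriv ?_
        rw [fd, wz]; ring
      set φ : ℝ := ζ s0 * ff (rho (ζ s0, θ s0)) with hφ
      have cφ : ∀ s, ζ s * ff (rho (ζ s, θ s)) = φ := fun s =>
        is_const_of_deriv_eq_zero (fun s => (dφ s).differentiableAt) (fun s => (dφ s).deriv) s s0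
      set Co : ℝ := cos (om * (c + φ)) with hCo
      set Si : ℝ := sin (om * (c + φ)) with hSi
      set e : ℝ → ℝ := fun s => -(π * rr * (ff (rho (ζ s, θ s)) - 1) *
        (-(2 * ζ s * θ s * ep / rr ^ 2)) + κ * (2 * π * ep * rr * GG (rho (ζ s, θ s))) *
          (ff (rho (ζ s, θ s)) + 2 * ζ s ^ 2 * ep / rr ^ 2)) with hedef
      set ws : ℝ → ℝ := fun s => θ s / rr * ep -
        κ * (2 * ep * (ζ s / rr) * deriv GG (rho (ζ s, θ s))) with hwsdef
      have e1 : ∀ s, (plugW c κ (ζ s, θ s)).1 = e s * Co - ws s * Si := by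
        intro s
        have h1 := fd s
        have h2 := cφ s
        unfold plugW
        dsimp only
        rw [h1, h2]
      have e2 : ∀ s, (plugW c κ (ζ s, θ s)).2.1 = e s * Si + ws s * Co := by
        intro s
        have h1 := fd s
        have h2 := cφ s
        unfold plugW
        dsimp only
        rw [h1, h2]
      have hCS : Co ^ 2 + Si ^ 2 = 1 := by rw [hCo, hSi, cos_sq_add_sin_sq]
      have dlog : ∀ s, HasDerivAt (fun s => Real.log (ζ s)) (-(2 * θ s * ep / rr ^ 2)) s := by
        intro s
        refine ((hζ s).log (hz s)).congr_deriv ?_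
        rw [wz]
        have := hz s
        field_simp
      set Q1 : ℝ → ℝ := fun s => x s * Co + y s * Si + π * rr * (φ * Real.log (ζ s) - ζ s) with hQ1
      set Q2 : ℝ → ℝ := fun s => -(x s * Si) + y s * Co + rr / 2 * Real.log (ζ s) with hQ2
      have dQ1 : ∀ s, HasDerivAt Q1 (-κ * (2 * π * ep * rr * GG (rho (ζ s, θ s)) *
          (ff (rho (ζ s, θ s)) + 2 * ζ s ^ 2 * ep / rr ^ 2))) s := by
        intro s
        have h1 := (((hx s).mul_const Co).add ((hy s).mul_const Si)).add
          ((((dlog s).const_mul φ).sub (hζ s)).const_mul (π * rr))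
        refine h1.congr_deriv ?_
        rw [e1, e2, wz, hedef, ← cφ s]
        dsimp only
        linear_combination (-(π * rr * (ff (rho (ζ s, θ s)) - 1) *
          (-(2 * ζ s * θ s * ep / rr ^ 2)) + κ * (2 * π * ep * rr * GG (rho (ζ s, θ s))) *
          (ff (rho (ζ s, θ s)) + 2 * ζ s ^ 2 * ep / rr ^ 2))) * hCS
      have dQ2 : ∀ s, HasDerivAt Q2 (-κ * (2 * ep * (ζ s / rr) * deriv GG (rho (ζ s, θ s)))) s := by
        intro s
        have h1 := ((((hx s).mul_const Si).neg).add ((hy s).mul_const Co)).add
          ((dlog s).const_mul (rr / 2))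
        refine h1.congr_deriv ?_
        rw [e1, e2, hwsdef]
        dsimp only
        have h3 : rr / 2 * -(2 * θ s * ep / rr ^ 2) = -(θ s / rr * ep) := by
          field_simp
        rw [h3]
        linear_combination (θ s / rr * ep -
          κ * (2 * ep * (ζ s / rr) * deriv GG (rho (ζ s, θ s)))) * hCS
      -- the loop
      set l : ℝ → R2 := fun σ => (ζ (s0 + rr * σ) / rr, θ (s0 + rr * σ) / rr) with hl
      have hsq : ∀ σ, (l σ).1 ^ 2 + (l σ).2 ^ 2 = rho (ζ (s0 + rr * σ), θ (s0 + rr * σ)) := by
        intro σ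
        simp only [hl, rho]
        field_simp
      have daff : ∀ σ, HasDerivAt (fun σ => s0 + rr * σ) rr σ := by
        intro σ
        simpa using ((hasDerivAt_id σ).const_mul rr).const_add s0
      have hY2 : ∀ σ, (Yh (l σ)).2 = ff (rho (ζ (s0 + rr * σ), θ (s0 + rr * σ))) +
          2 * ζ (s0 + rr * σ) ^ 2 * ep / rr ^ 2 := by
        intro σ
        unfold Yh
        dsimp only
        rw [hsq, fd]
        simp only [hl]
        field_simp
      have hY1 : ∀ σ, (Yh (l σ)).1 = -(2 * ζ (s0 + rr * σ) * θ (s0 + rr * σ) * ep / rr ^ 2) := by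
        intro σ
        unfold Yh
        dsimp only
        rw [hsq, fd]
        simp only [hl]
        field_simp
      have hloop : Loop l (T / rr) := by
        refine ⟨by positivity, ?_, ?_, ?_, ?_, ?_⟩
        · intro σ
          have h1 : HasDerivAt (fun σ => ζ (s0 + rr * σ) / rr)
              ((plugW c κ (ζ (s0 + rr * σ), θ (s0 + rr * σ))).2.2.1 * rr / rr) σ :=
            ((hζ (s0 + rr * σ)).comp σ (daff σ)).div_const rr
          have h2 : HasDerivAt (fun σ => θ (s0 + rr * σ) / rr)
              ((plugW c κ (ζ (s0 + rr * σ), θ (s0 + rr * σ))).2.2.2 * rr / rr) σ :=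
            ((hθ (s0 + rr * σ)).comp σ (daff σ)).div_const rr
          refine (h1.prodMk h2).congr_deriv ?_
          rw [wz, wt, mul_div_cancel_right₀ _ hr0, mul_div_cancel_right₀ _ hr0, ← hY1, ← hY2]
        · have h1 : s0 + rr * (T / rr) = s0 + T := by field_simp
          simp only [hl, h1, mul_zero, add_zero, pζ, pθ]
        · simp [hl, hθ0]
        · simp only [hl, mul_zero, add_zero]
          exact div_ne_zero (hz s0) hr0
        · have h1 := h s0
          simp only [hl, mul_zero, add_zero]
          rw [hθ0] at h1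
          unfold rho at h1
          rw [div_pow]
          simpa using h1
      have cl : Continuous l := continuous_iff_continuousAt.2 fun s => (hloop.deriv s).continuousAt
      have cY : Continuous fun σ => (Yh (l σ)).2 := (continuous_snd.comp Yh_continuous).comp cl
      have cG : Continuous fun σ => GG ((l σ).1 ^ 2 + (l σ).2 ^ 2) :=
        GG_contDiff.continuous.comp (by fun_prop)
      have cG' : Continuous fun σ => deriv GG ((l σ).1 ^ 2 + (l σ).2 ^ 2) :=
        deriv_GG_contDiff.continuous.comp (by fun_prop)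
      set I1 : ℝ := ∫ s in (0 : ℝ)..(T / rr),
        2 * π * ep * rr * GG ((l s).1 ^ 2 + (l s).2 ^ 2) * (Yh (l s)).2 with hI1
      set I2 : ℝ := ∫ s in (0 : ℝ)..(T / rr),
        2 * ep * (l s).1 * deriv GG ((l s).1 ^ 2 + (l s).2 ^ 2) with hI2
      have hend : s0 + rr * (T / rr) = s0 + T := by field_simp
      have f1 : -κ * rr * I1 = a * Co + b * Si := by
        have h1 : ∀ σ ∈ Set.uIcc 0 (T / rr), HasDerivAt (fun σ => Q1 (s0 + rr * σ))
            (-κ * rr * (2 * π * ep * rr * GG ((l σ).1 ^ 2 + (l σ).2 ^ 2) * (Yh (l σ)).2)) σ := by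
          intro σ _
          refine ((dQ1 (s0 + rr * σ)).comp σ (daff σ)).congr_deriv ?_
          rw [hsq, hY2]; ring
        have h2 := intervalIntegral.integral_eq_sub_of_hasDerivAt h1
          (Continuous.intervalIntegrable (by fun_prop) _ _)
        rw [intervalIntegral.integral_const_mul] at h2
        rw [hI1, h2, hend, mul_zero, add_zero]
        simp only [hQ1, px, py, pζ]
        ring
      have f2 : -κ * rr * I2 = -a * Si + b * Co := by
        have h1 : ∀ σ ∈ Set.uIcc 0 (T / rr), HasDerivAt (fun σ => Q2 (s0 + rr * σ))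
            (-κ * rr * (2 * ep * (l σ).1 * deriv GG ((l σ).1 ^ 2 + (l σ).2 ^ 2))) σ := by
          intro σ _
          refine ((dQ2 (s0 + rr * σ)).comp σ (daff σ)).congr_deriv ?_
          rw [hsq]
          simp only [hl]; ring
        have h2 := intervalIntegral.integral_eq_sub_of_hasDerivAt h1
          (Continuous.intervalIntegrable (by fun_prop) _ _)
        rw [intervalIntegral.integral_const_mul] at h2
        rw [hI2, h2, hend, mul_zero, add_zero]
        simp only [hQ2, px, py, pζ]
        ring
      apply hgen.loop l (T / rr) hloop a b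
      have hl0 : rr * (l 0).1 * ff ((l 0).1 ^ 2) = φ := by
        have h1 := hsq 0
        rw [hloop.axis] at h1
        have h2 : (l 0).1 ^ 2 = rho (ζ s0, θ s0) := by
          simpa using h1
        rw [h2, hφ]
        simp only [hl, mul_zero, add_zero]
        field_simp
      unfold disp
      rw [hl0, ← hI1, ← hI2]
      have hE : Complex.exp (Complex.I * ((om * c : ℝ) : ℂ)) *
          Complex.exp (Complex.I * ((om * φ : ℝ) : ℂ)) = Co + Si * Complex.I := by
        rw [← Complex.exp_add, hCo, hSi, Complex.ofReal_cos, Complex.ofReal_sin,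
          ← Complex.exp_mul_I]
        congr 1
        push_cast; ring
      have f1' : -(κ : ℂ) * rr * I1 = a * Co + b * Si := by exact_mod_cast f1
      have f2' : -(κ : ℂ) * rr * I2 = -a * Si + b * Co := by exact_mod_cast f2
      have hCS' : (Co : ℂ) ^ 2 + (Si : ℂ) ^ 2 = 1 := by exact_mod_cast hCS
      calc (κ : ℂ) * Complex.exp (Complex.I * ((om * c : ℝ) : ℂ)) *
            (-(rr : ℂ) * Complex.exp (Complex.I * ((om * φ : ℝ) : ℂ)) *
              ((I1 : ℂ) + Complex.I * (I2 : ℂ)))
          = (Complex.exp (Complex.I * ((om * c : ℝ) : ℂ)) *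
              Complex.exp (Complex.I * ((om * φ : ℝ) : ℂ))) *
              ((-(κ : ℂ) * rr * I1) + Complex.I * (-(κ : ℂ) * rr * I2)) := by ring
        _ = a + b * Complex.I := by
            rw [hE, f1', f2']
            linear_combination ((a : ℂ) + b * Complex.I) * hCS' +
              (-(a : ℂ) * Si ^ 2 + b * Co * Si) * Complex.I_sq

end Pool.Agent.Helper79.Engel

namespace Pool.Agent.Helper53.Engel

open Pool.Agent.Helper79.Engel

theorem FF_pos (P : Par) (hP : P.Good) (γ : ℝ → V4) (hγ : ∀ s, HasDerivAt γ (P.W (γ s)) s)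
    (T : ℝ) (hT : 0 < T) (n : V4) (hn : n ∈ Lat) (hc : ∀ s, γ (s + T) = γ s + n)
    (i : Fin 3) (s : ℝ) : 0 < P.FF i (γ s).2.2 := by
  by_contra hneg
  push Not at hneg
  have cγ : Continuous γ := continuous_iff_continuousAt.2 fun s => (hγ s).continuousAt
  have hgen : Generic (P.cen i).1 (P.kap i) := by
    fin_cases i
    · simpa [Par.cen, Par.kap] using hP.gen1
    · simpa [Par.cen, Par.kap] using generic_half hP.gen1
    · simpa [Par.cen, Par.kap] using generic_half hP.gen0
  -- sign of FF
  obtain ⟨g, hg, hgd⟩ := FF_ode P i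
  have hsol := lin_ode (f := fun s => P.FF i (γ s).2.2) (g := fun s => g (γ s)) (hg.comp cγ)
    (fun s => hgd γ s (hγ s)) s
  have hsign : (∀ t, P.FF i (γ t).2.2 < 0) ∨ (∀ t, P.FF i (γ t).2.2 = 0) := by
    rcases hneg.lt_or_eq with h | h
    · left; intro t; rw [hsol t]; exact mul_neg_of_neg_of_pos h (Real.exp_pos _)
    · right; intro t; rw [hsol t, h, zero_mul]
  have hnp : ∀ t, P.FF i (γ t).2.2 ≤ 0 := by
    rcases hsign with h | h
    · exact fun t => (h t).le
    · exact fun t => (h t).le
  have hr := rr_pos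
  -- each point is in a disc
  have hdisc : ∀ t, ∃ m k : ℤ, ((γ t).2.2.1 - (P.cen i).1 - m) ^ 2 +
      ((γ t).2.2.2 - (P.cen i).2 - k) ^ 2 < 2 * rr ^ 2 := by
    intro t
    by_contra hcon
    push Not at hcon
    have := FF_out P i (γ t).2.2 hcon
    have := hnp t
    linarith
  have hin : ∀ t (m k : ℤ), ((γ t).2.2.1 - (P.cen i).1 - m) ^ 2 +
      ((γ t).2.2.2 - (P.cen i).2 - k) ^ 2 < 2 * rr ^ 2 → inPlug P i m k (γ t) := by
    intro t m k h
    unfold rr at h
    constructor
    · apply abs_lt_of_sq_lt_sq _ (by norm_num)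
      nlinarith [sq_nonneg ((γ t).2.2.2 - (P.cen i).2 - k)]
    · apply abs_lt_of_sq_lt_sq _ (by norm_num)
      nlinarith [sq_nonneg ((γ t).2.2.1 - (P.cen i).1 - m)]
  obtain ⟨m, k, hmk⟩ := hdisc 0
  have hρle : ∀ t (m k : ℤ), inPlug P i m k (γ t) →
      rho ((γ t).2.2.1 - (P.cen i).1 - m, (γ t).2.2.2 - (P.cen i).2 - k) ≤ 1 := by
    intro t m k h
    by_contra hcon
    push Not at hcon
    have h1 := FF_plug P i m k (γ t) h
    have h2 := ff_pos _ hcon
    have h3 := hnp t
    linarith
  have hsmall : ∀ t (m k : ℤ), inPlug P i m k (γ t) →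
      |(γ t).2.2.1 - (P.cen i).1 - m| ≤ 1 / 40 ∧ |(γ t).2.2.2 - (P.cen i).2 - k| ≤ 1 / 40 := by
    intro t m k h
    have h1 := hρle t m k h
    unfold rho rr at h1
    dsimp only at h1
    rw [div_le_one (by norm_num)] at h1
    constructor
    · apply abs_le_of_sq_le_sq _ (by norm_num)
      nlinarith [sq_nonneg ((γ t).2.2.2 - (P.cen i).2 - k)]
    · apply abs_le_of_sq_le_sq _ (by norm_num)
      nlinarith [sq_nonneg ((γ t).2.2.1 - (P.cen i).1 - m)]
  -- the disc is constant
  have hall : ∀ t, inPlug P i m k (γ t) := by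
    have c1 : Continuous fun t => |(γ t).2.2.1 - (P.cen i).1 - m| := by fun_prop
    have c2 : Continuous fun t => |(γ t).2.2.2 - (P.cen i).2 - k| := by fun_prop
    have hclopen : IsClopen {t | inPlug P i m k (γ t)} := by
      constructor
      · have : {t | inPlug P i m k (γ t)} = {t | |(γ t).2.2.1 - (P.cen i).1 - m| ≤ 1 / 40 ∧
            |(γ t).2.2.2 - (P.cen i).2 - k| ≤ 1 / 40} := by
          ext t
          refine ⟨fun h => hsmall t m k h, fun h => ⟨?_, ?_⟩⟩
          · exact h.1.trans_lt (by norm_num)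
          · exact h.2.trans_lt (by norm_num)
        rw [this]
        exact (isClosed_le c1 continuous_const).inter (isClosed_le c2 continuous_const)
      · exact (isOpen_lt c1 continuous_const).inter (isOpen_lt c2 continuous_const)
    have := hclopen.eq_univ ⟨0, hin 0 m k hmk⟩
    intro t
    have h2 : t ∈ {t | inPlug P i m k (γ t)} := by rw [this]; trivial
    exact h2
  obtain ⟨a, b, c, d, rfl⟩ := hn
  have hc0 : c = 0 ∧ d = 0 := by
    have h1 := hsmall 0 m k (hall 0)
    have h2 := hsmall (0 + T) m k (hall (0 + T))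
    rw [hc] at h2
    simp only [Prod.snd_add, Prod.fst_add] at h2
    obtain ⟨h1a, h1b⟩ := h1
    obtain ⟨h2a, h2b⟩ := h2
    rw [abs_le] at h1a h1b h2a h2b
    constructor
    · have : |(c : ℝ)| < 1 := by rw [abs_lt]; constructor <;> linarith [h1a.1, h1a.2, h2a.1, h2a.2]
      have : |c| < 1 := by exact_mod_cast this
      exact Int.abs_lt_one_iff.1 this
    · have : |(d : ℝ)| < 1 := by rw [abs_lt]; constructor <;> linarith [h1b.1, h1b.2, h2b.1, h2b.2]
      have : |d| < 1 := by exact_mod_cast this
      exact Int.abs_lt_one_iff.1 this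
  obtain ⟨rfl, rfl⟩ := hc0
  have dW : ∀ t, HasDerivAt γ (plugW (P.cen i).1 (P.kap i)
      ((γ t).2.2.1 - (P.cen i).1 - m, (γ t).2.2.2 - (P.cen i).2 - k)) t := by
    intro t
    have := hγ t
    rwa [W_plug P i m k (γ t) (hall t)] at this
  refine no_trapped hgen (x := fun t => (γ t).1) (y := fun t => (γ t).2.1)
    (ζ := fun t => (γ t).2.2.1 - (P.cen i).1 - m) (θ := fun t => (γ t).2.2.2 - (P.cen i).2 - k)
    hT (a := a) (b := b) ?_ ?_ ?_ ?_ ?_ ?_ ?_ ?_ ?_
  · intro t
    exact (ContinuousLinearMap.fst ℝ ℝ (ℝ × ℝ × ℝ)).hasFDerivAt.comp_hasDerivAt t (dW t)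
  · intro t
    exact pry.hasFDerivAt.comp_hasDerivAt t (dW t)
  · intro t
    exact ((prz.hasFDerivAt.comp_hasDerivAt t (dW t)).sub_const _).sub_const _
  · intro t
    exact ((prt.hasFDerivAt.comp_hasDerivAt t (dW t)).sub_const _).sub_const _
  · intro t
    simp only [hc]; rfl
  · intro t
    simp only [hc]; rfl
  · intro t
    simp [hc]
  · intro t
    simp [hc]
  · rcases hsign with h | h
    · left
      intro t
      by_contra hcon
      push Not at hcon
      have h1 := h t
      rw [FF_plug P i m k (γ t) (hall t)] at h1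
      have h2 := ff_mono hcon
      rw [ff_one] at h2
      linarith
    · right
      intro t
      have h1 := h t
      rw [FF_plug P i m k (γ t) (hall t)] at h1
      rcases lt_trichotomy (rho ((γ t).2.2.1 - (P.cen i).1 - m, (γ t).2.2.2 - (P.cen i).2 - k)) 1
        with h2 | h2 | h2
      · have := ff_neg _ h2
        linarith
      · exact h2
      · have := ff_pos _ h2
        linarith

end Pool.Agent.Helper53.Engel
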