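import Mathlib

/-!
# Differentiability of the time one map of a Lipschitz C¹ vector field at a point
-/

set_option autoImplicit false

open Topology Real Set
open scoped ContDiff

namespace Pool.Agent.Helper53.Engel

theorem hasFDerivAt_flow {V : Type*} [NormedAddCommGroup V] [NormedSpace ℝ V]
    [FiniteDimensional ℝ V] {W : V → V} (hW : ContDiff ℝ 1 W) {K : NNReal} (hK : LipschitzWith K W)
    {γ : ℝ → V} (hγ : ∀ s ∈ Set.Icc (0 : ℝ) 1, HasDerivWithinAt γ (W (γ s)) (Set.Icc 0 1) s)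
    {F : Type*} [NormedAddCommGroup F] [NormedSpace ℝ F] [FiniteDimensional ℝ F]
    (i : F →L[ℝ] V) (A : F →L[ℝ] V) (m : F → ℝ → V)
    (hm : ∀ v, ∀ s ∈ Set.Icc (0 : ℝ) 1,
      HasDerivWithinAt (m v) (fderiv ℝ W (γ s) (m v s)) (Set.Icc 0 1) s)
    (hm0 : ∀ v, m v 0 = i v) (hm1 : ∀ v, m v 1 = A v)
    (Φ : F → V)
    (hΦ : ∀ᶠ v in 𝓝 (0 : F), ∃ c : ℝ → V, c 0 = γ 0 + i v ∧
      (∀ s ∈ Set.Icc (0 : ℝ) 1, HasDerivWithinAt c (W (c s)) (Set.Icc 0 1) s) ∧
      c 1 = γ 1 + Φ v) :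
    HasFDerivAt Φ A 0 := by
  have h01 : (1 : ℝ) ∈ Icc (0 : ℝ) 1 := by simp
  have ici : ∀ {f : ℝ → V} {f' : V} {s : ℝ}, s ∈ Ico (0 : ℝ) 1 →
      HasDerivWithinAt f f' (Icc 0 1) s → HasDerivWithinAt f f' (Ici s) s := by
    intro f f' s hs h
    exact h.mono_of_mem_nhdsWithin (Icc_mem_nhdsGE_of_mem hs)
  have cont : ∀ {f f' : ℝ → V}, (∀ s ∈ Icc (0 : ℝ) 1, HasDerivWithinAt f (f' s) (Icc 0 1) s) →
      ContinuousOn f (Icc 0 1) := fun h s hs => (h s hs).continuousWithinAt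
  -- distance between trajectories
  have hdist : ∀ (c : ℝ → V), (∀ s ∈ Icc (0 : ℝ) 1, HasDerivWithinAt c (W (c s)) (Icc 0 1) s) →
      ∀ s ∈ Icc (0 : ℝ) 1, ‖c s - γ s‖ ≤ ‖c 0 - γ 0‖ * exp K := by
    intro c hc s hs
    have h := dist_le_of_trajectories_ODE (v := fun _ => W) (K := K) (a := 0) (b := 1)
      (δ := dist (c 0) (γ 0)) (fun _ => hK) (cont hc)
      (fun t ht => ici ht (hc t (Ico_subset_Icc_self ht))) (cont hγ)
      (fun t ht => ici ht (hγ t (Ico_subset_Icc_self ht))) le_rfl s hs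
    rw [dist_eq_norm, dist_eq_norm] at h
    refine h.trans ?_
    apply mul_le_mul_of_nonneg_left _ (norm_nonneg _)
    apply Real.exp_le_exp.2
    have hK0 : (0 : ℝ) ≤ K := K.2
    nlinarith [hs.1, hs.2]
  have hΦ0 : Φ 0 = 0 := by
    obtain ⟨c, h0, h1, h2⟩ := hΦ.self_of_nhds
    have := hdist c h1 1 h01
    rw [h0, h2] at this
    simpa using this
  -- uniform differentiability along γ
  have hcpt : IsCompact (γ '' Icc (0 : ℝ) 1) := isCompact_Icc.image_of_continuousOn (cont hγ)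
  have hcd : Continuous (fderiv ℝ W) := hW.continuous_fderiv (by simp)
  have hunif : ∀ ε > 0, ∃ δ > 0, ∀ s ∈ Icc (0 : ℝ) 1, ∀ y, ‖y - γ s‖ < δ →
      ‖W y - W (γ s) - fderiv ℝ W (γ s) (y - γ s)‖ ≤ ε * ‖y - γ s‖ := by
    intro ε hε
    have h := hcpt.uniformContinuousAt_of_continuousAt (fderiv ℝ W)
      (fun a _ => hcd.continuousAt) (Metric.dist_mem_uniformity hε)
    rw [Metric.mem_uniformity_dist] at h
    obtain ⟨δ, hδ, h⟩ := h
    refine ⟨δ, hδ, fun s hs y hy => ?_⟩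
    have hconv : Convex ℝ (Metric.ball (γ s) δ) := convex_ball _ _
    apply hconv.norm_image_sub_le_of_norm_fderiv_le' (𝕜 := ℝ)
    · intro x _
      exact (hW.differentiable (by simp)) x
    · intro x hx
      have h1 := h (a := γ s) (b := x) (by rw [dist_comm]; exact hx) ⟨s, hs, rfl⟩
      change dist (fderiv ℝ W (γ s)) (fderiv ℝ W x) < ε at h1
      rw [dist_comm, dist_eq_norm] at h1
      exact h1.le
    · exact Metric.mem_ball_self hδ
    · rw [Metric.mem_ball, dist_eq_norm]; exact hy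
  rw [hasFDerivAt_iff_isLittleO_nhds_zero, Asymptotics.isLittleO_iff]
  intro C hC
  -- constants
  set E : ℝ := exp K with hE
  have hEpos : 0 < E := exp_pos _
  set M : ℝ := ‖i‖ * E * exp (K + 1) + 1 with hM
  have hMpos : 0 < M := by positivity
  obtain ⟨δ, hδ, hu⟩ := hunif (C / M) (by positivity)
  have hsmall : ∀ᶠ v in 𝓝 (0 : F), ‖i v‖ * E < δ := by
    have : Filter.Tendsto (fun v : F => ‖i v‖ * E) (𝓝 0) (𝓝 (‖i 0‖ * E)) := by
      apply Continuous.tendsto; fun_prop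
    rw [map_zero, norm_zero, zero_mul] at this
    exact this.eventually_lt_const hδ
  filter_upwards [hΦ, hsmall] with v hv hsv
  obtain ⟨c, h0, h1, h2⟩ := hv
  have hcγ : ∀ s ∈ Icc (0 : ℝ) 1, ‖c s - γ s‖ ≤ ‖i v‖ * E := by
    intro s hs
    have := hdist c h1 s hs
    rwa [h0, add_sub_cancel_left] at this
  set w : ℝ → V := fun s => c s - γ s - m v s with hw
  have hder : ∀ s ∈ Icc (0 : ℝ) 1, HasDerivWithinAt w
      (W (c s) - W (γ s) - fderiv ℝ W (γ s) (m v s)) (Icc 0 1) s := by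
    intro s hs
    exact ((h1 s hs).sub (hγ s hs)).sub (hm v s hs)
  have hbound : ∀ s ∈ Ico (0 : ℝ) 1, ‖W (c s) - W (γ s) - fderiv ℝ W (γ s) (m v s)‖ ≤
      ((K : ℝ) + 1) * ‖w s‖ + C / M * (‖i v‖ * E) := by
    intro s hs
    have hs' := Ico_subset_Icc_self hs
    have e1 : W (c s) - W (γ s) - fderiv ℝ W (γ s) (m v s) =
        (W (c s) - W (γ s) - fderiv ℝ W (γ s) (c s - γ s)) + fderiv ℝ W (γ s) (w s) := by
      simp only [hw, map_sub]; abel
    rw [e1]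
    have e2 := hu s hs' (c s) ((hcγ s hs').trans_lt hsv)
    have e3 : ‖fderiv ℝ W (γ s) (w s)‖ ≤ K * ‖w s‖ :=
      ((fderiv ℝ W (γ s)).le_opNorm _).trans
        (mul_le_mul_of_nonneg_right (norm_fderiv_le_of_lipschitz ℝ hK) (norm_nonneg _))
    have e4 : C / M * ‖c s - γ s‖ ≤ C / M * (‖i v‖ * E) :=
      mul_le_mul_of_nonneg_left (hcγ s hs') (by positivity)
    calc _ ≤ _ := norm_add_le _ _
      _ ≤ C / M * (‖i v‖ * E) + K * ‖w s‖ := add_le_add (e2.trans e4) e3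
      _ ≤ _ := by nlinarith [norm_nonneg (w s)]
  have hG := norm_le_gronwallBound_of_norm_deriv_right_le (cont hder)
    (fun s hs => ici hs (hder s (Ico_subset_Icc_self hs))) (δ := 0) (by simp [hw, h0, hm0]) hbound
    1 h01
  have hK1 : (K : ℝ) + 1 ≠ 0 := by positivity
  have hK0 : (0 : ℝ) ≤ K := K.2
  rw [gronwallBound_of_K_ne_0 hK1] at hG
  have hw1 : w 1 = Φ v - A v := by
    simp only [hw, h2, hm1]; abel
  rw [zero_add, hΦ0, sub_zero, ← hw1]
  refine hG.trans ?_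
  have f1 : C / M * (‖i v‖ * E) / ((K : ℝ) + 1) * (exp (((K : ℝ) + 1) * (1 - 0)) - 1) ≤
      C / M * (‖i v‖ * E) * exp ((K : ℝ) + 1) := by
    rw [sub_zero, mul_one]
    have g1 : C / M * (‖i v‖ * E) / ((K : ℝ) + 1) ≤ C / M * (‖i v‖ * E) :=
      div_le_self (by positivity) (by linarith)
    have g2 : exp ((K : ℝ) + 1) - 1 ≤ exp ((K : ℝ) + 1) := by linarith
    have g3 : 0 ≤ exp ((K : ℝ) + 1) - 1 := by
      have := Real.add_one_le_exp ((K : ℝ) + 1)
      linarith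
    exact mul_le_mul g1 g2 g3 (by positivity)
  have f2 : C / M * (‖i v‖ * E) * exp ((K : ℝ) + 1) ≤ C * ‖v‖ := by
    have g1 : ‖i v‖ ≤ ‖i‖ * ‖v‖ := i.le_opNorm v
    have g2 : C / M * (‖i v‖ * E) * exp ((K : ℝ) + 1) ≤
        C / M * ((‖i‖ * ‖v‖) * E) * exp ((K : ℝ) + 1) := by gcongr
    refine g2.trans ?_
    have g3 : C / M * ((‖i‖ * ‖v‖) * E) * exp ((K : ℝ) + 1) = C / M * (M - 1) * ‖v‖ := by
      rw [hM]; ring
    rw [g3]
    have g4 : C / M * (M - 1) ≤ C := by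
      rw [div_mul_eq_mul_div, div_le_iff₀ hMpos]
      nlinarith
    exact mul_le_mul_of_nonneg_right g4 (norm_nonneg _)
  simp only [zero_mul, zero_add]
  exact f1.trans f2

end Pool.Agent.Helper53.Engel
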